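import Mathlib

set_option autoImplicit false
open Filter Topology MeasureTheory Set

namespace Pool.Agent.H.MP_1ac4dc_an

noncomputable def E (w : ℕ → ℝ) (z : ℂ) : ℂ := ∑' n : ℕ, (w n : ℂ) * z ^ n / (n.factorial : ℂ)

lemma term_le (w : ℕ → ℝ) (B : ℝ) (hw : ∀ n, |w n| ≤ B) (z : ℂ) (R : ℝ) (hz : ‖z‖ ≤ R) (n : ℕ) :
    ‖(w n : ℂ) * z ^ n / (n.factorial : ℂ)‖ ≤ B * (R ^ n / (n.factorial : ℝ)) := by
  rw [norm_div, norm_mul, norm_pow, Complex.norm_real, Complex.norm_natCast, Real.norm_eq_abs,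
    mul_div_assoc]
  have hB : 0 ≤ B := (abs_nonneg _).trans (hw 0)
  gcongr
  exact hw n

lemma summ (w : ℕ → ℝ) (B : ℝ) (hw : ∀ n, |w n| ≤ B) (z : ℂ) :
    Summable fun n : ℕ => (w n : ℂ) * z ^ n / (n.factorial : ℂ) :=
  Summable.of_norm_bounded ((Real.summable_pow_div_factorial ‖z‖).mul_left B)
    (term_le w B hw z _ le_rfl)

lemma E_diff (w : ℕ → ℝ) (B : ℝ) (hw : ∀ n, |w n| ≤ B) : Differentiable ℂ (E w) := by
  intro z
  have h : DifferentiableOn ℂ (E w) (Metric.ball 0 (‖z‖ + 1)) := by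
    refine Complex.differentiableOn_tsum_of_summable_norm
      ((Real.summable_pow_div_factorial (‖z‖ + 1)).mul_left B) (fun n => ?_) Metric.isOpen_ball
      (fun n x hx => term_le w B hw x _ (by simpa using (mem_ball_zero_iff.1 hx).le) n)
    fun_prop
  exact h.differentiableAt (Metric.isOpen_ball.mem_nhds (by simp))

lemma E_one (z : ℂ) : E (fun _ => 1) z = Complex.exp z := by
  unfold E
  rw [Complex.exp_eq_exp_ℂ, NormedSpace.exp_eq_tsum_div]
  simp

lemma E_conj (w : ℕ → ℝ) (z : ℂ) : E w ((starRingEnd ℂ) z) = (starRingEnd ℂ) (E w z) := by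
  unfold E
  rw [Complex.conj_tsum]
  simp

lemma E_sub (w v : ℕ → ℝ) (B C : ℝ) (hw : ∀ n, |w n| ≤ B) (hv : ∀ n, |v n| ≤ C) (d : ℝ) (z : ℂ) :
    E (fun n => w n - d * v n) z = E w z - d * E v z := by
  unfold E
  rw [← tsum_mul_left, ← (summ w B hw z).tsum_sub ((summ v C hv z).mul_left _)]
  congr 1; funext n; push_cast; ring

def Bd (w : ℕ → ℝ) (M : ℝ) : Prop := ∀ z : ℂ, ‖E w z‖ ≤ M * Real.exp (max z.re 0)

lemma int_pow (p : ℝ) (hp : 0 < p) (n : ℕ) :
    ∫ s in (0:ℝ)..1, (s ^ (1 / p)) ^ n = p / (n + p) := by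
  have h : ∀ s ∈ uIcc (0:ℝ) 1, (s ^ (1 / p)) ^ n = s ^ ((n : ℝ) / p) := by
    intro s hs
    rw [uIcc_of_le zero_le_one] at hs
    rw [← Real.rpow_natCast, ← Real.rpow_mul hs.1]
    congr 1; ring
  rw [intervalIntegral.integral_congr h, integral_rpow (Or.inl (by
    have : 0 ≤ (n : ℝ) / p := by positivity
    linarith))]
  have h1 : (n : ℝ) / p + 1 ≠ 0 := by positivity
  rw [Real.one_rpow, Real.zero_rpow h1]
  field_simp
  simp

lemma E_div (w : ℕ → ℝ) (B : ℝ) (hw : ∀ n, |w n| ≤ B) (p : ℝ) (hp : 0 < p) (z : ℂ) :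
    E (fun n => w n / (n + p)) z =
      (∫ s in Ioc (0:ℝ) 1, E w (z * ((s ^ (1 / p) : ℝ) : ℂ))) / p := by
  have hc : Continuous fun s : ℝ => s ^ (1 / p) := Real.continuous_rpow_const (by positivity)
  have hb : ∀ s ∈ Ioc (0:ℝ) 1, ‖z * ((s ^ (1 / p) : ℝ) : ℂ)‖ ≤ ‖z‖ := by
    intro s hs
    rw [norm_mul, Complex.norm_real, Real.norm_eq_abs,
      abs_of_nonneg (Real.rpow_nonneg hs.1.le _)]
    exact mul_le_of_le_one_right (norm_nonneg _) (Real.rpow_le_one hs.1.le hs.2 (by positivity))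
  have hint : ∀ n : ℕ, Integrable
      (fun s : ℝ => (w n : ℂ) * (z * ((s ^ (1 / p) : ℝ) : ℂ)) ^ n / (n.factorial : ℂ))
      (volume.restrict (Ioc (0:ℝ) 1)) := by
    intro n
    refine Continuous.integrableOn_Ioc ?_
    have := Complex.continuous_ofReal.comp hc
    exact (continuous_const.mul ((continuous_const.mul this).pow n)).div_const _
  have hs := hasSum_integral_of_summable_integral_norm hint (by
    refine Summable.of_nonneg_of_le (fun n => integral_nonneg fun s => norm_nonneg _) (fun n => ?_)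
      ((Real.summable_pow_div_factorial ‖z‖).mul_left B)
    have := norm_setIntegral_le_of_norm_le_const (μ := volume) (s := Ioc (0:ℝ) 1)
      (f := fun s : ℝ => ‖(w n : ℂ) * (z * ((s ^ (1 / p) : ℝ) : ℂ)) ^ n / (n.factorial : ℂ)‖)
      (C := B * (‖z‖ ^ n / (n.factorial : ℝ))) (by simp)
      (fun s hs => by rw [norm_norm]; exact term_le w B hw _ _ (hb s hs) n)
    simp only [Real.norm_eq_abs] at this
    have h2 := (le_abs_self _).trans this
    simpa using h2)
  unfold E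
  rw [← hs.tsum_eq, ← tsum_div_const]
  congr 1; funext n
  have e : ∀ s : ℝ, (w n : ℂ) * (z * ((s ^ (1 / p) : ℝ) : ℂ)) ^ n / (n.factorial : ℂ) =
      ((w n : ℂ) * z ^ n / (n.factorial : ℂ)) * (((s ^ (1 / p)) ^ n : ℝ) : ℂ) := by
    intro s; push_cast; ring
  simp_rw [e]
  rw [integral_const_mul, integral_complex_ofReal, ← intervalIntegral.integral_of_le zero_le_one,
    int_pow p hp n]
  have h1 : (p : ℂ) ≠ 0 := by exact_mod_cast hp.ne'
  have h2 : ((n : ℂ) + p) ≠ 0 := by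
    have : (n : ℝ) + p ≠ 0 := by positivity
    exact_mod_cast this
  push_cast
  field_simp

lemma Bd_div (w : ℕ → ℝ) (B : ℝ) (hw : ∀ n, |w n| ≤ B) (M : ℝ) (hM : Bd w M) (p : ℝ)
    (hp : 0 < p) : Bd (fun n => w n / (n + p)) (M / p) := by
  intro z
  have hM0 : 0 ≤ M := by
    have := (norm_nonneg _).trans (hM 0)
    simpa using this
  rw [E_div w B hw p hp, norm_div, Complex.norm_real, Real.norm_eq_abs, abs_of_pos hp,
    div_mul_eq_mul_div]
  gcongr
  have := norm_setIntegral_le_of_norm_le_const (μ := volume) (s := Ioc (0:ℝ) 1)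
    (f := fun s : ℝ => E w (z * ((s ^ (1 / p) : ℝ) : ℂ)))
    (C := M * Real.exp (max z.re 0)) (by simp) (fun s hs => by
      refine (hM _).trans (mul_le_mul_of_nonneg_left (Real.exp_le_exp.2 ?_) hM0)
      have h0 := Real.rpow_nonneg hs.1.le (1 / p)
      have h1 := Real.rpow_le_one hs.1.le hs.2 (show 0 ≤ 1 / p by positivity)
      rw [Complex.re_mul_ofReal]
      rcases le_total z.re 0 with h | h
      · rw [max_eq_right h, max_eq_right (mul_nonpos_of_nonpos_of_nonneg h h0)]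
      · rw [max_eq_left h, max_eq_left (mul_nonneg h h0)]
        exact mul_le_of_le_one_right h h1)
  simpa using this

def Good (w : ℕ → ℝ) (θ : ℝ) : Prop :=
  (∀ n, |w n| ≤ 1) ∧ ∀ z : ℂ, ‖E w z - Complex.exp z‖ ≤ θ * Real.exp (max z.re 0)

lemma good_one : Good (fun _ => 1) 0 := ⟨by simp, fun z => by simp [E_one]⟩

lemma abs_div_le (w : ℕ → ℝ) (B : ℝ) (hw : ∀ n, |w n| ≤ B) (p : ℝ) (hp : 0 < p) (n : ℕ) :
    |w n / (n + p)| ≤ B / p := by
  have hB : 0 ≤ B := (abs_nonneg _).trans (hw 0)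
  rw [abs_div, abs_of_pos (show 0 < (n : ℝ) + p by positivity)]
  gcongr
  · exact hw n
  · simp

lemma good_step (w : ℕ → ℝ) (θ : ℝ) (h : Good w θ) (p q d : ℝ) (hp : 0 < p) (hq : 0 < q)
    (hd : 0 ≤ d) (hd' : d ≤ p * q) :
    Good (fun n => w n * (1 - d / ((n + p) * (n + q)))) ((1 + θ) * (1 + d / (p * q)) - 1) := by
  refine ⟨fun n => ?_, fun z => ?_⟩
  · have h1 : d / ((n + p) * (n + q)) ≤ 1 := by
      rw [div_le_one (by positivity)]
      refine hd'.trans ?_
      gcongr <;> simp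
    have h2 : 0 ≤ d / ((n + p) * (n + q)) := by positivity
    rw [abs_mul, abs_of_nonneg (show 0 ≤ 1 - d / ((n + p) * (n + q)) by linarith)]
    exact mul_le_one₀ (h.1 n) (by linarith) (by linarith)
  · have hb : Bd w (1 + θ) := by
      intro x
      have h1 := h.2 x
      have h2 : ‖Complex.exp x‖ ≤ Real.exp (max x.re 0) := by
        rw [Complex.norm_exp]; gcongr; exact le_max_left _ _
      calc ‖E w x‖ = ‖(E w x - Complex.exp x) + Complex.exp x‖ := by ring_nf
        _ ≤ _ := norm_add_le _ _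
        _ ≤ _ := by linarith
    have a1 := abs_div_le w 1 h.1 p hp
    have b1 := Bd_div w 1 h.1 _ hb p hp
    have a2 := abs_div_le _ _ a1 q hq
    have b2 := Bd_div _ _ a1 _ b1 q hq
    have e : (fun n : ℕ => w n * (1 - d / ((n + p) * (n + q)))) =
        fun n : ℕ => w n - d * (w n / (n + p) / (n + q)) := by
      funext n
      have : (n : ℝ) + p ≠ 0 := by positivity
      have : (n : ℝ) + q ≠ 0 := by positivity
      field_simp
    rw [e, E_sub w _ 1 _ h.1 a2]
    have h1 := h.2 z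
    have h2 := b2 z
    calc ‖E w z - d * E (fun n : ℕ => w n / (n + p) / (n + q)) z - Complex.exp z‖
        = ‖(E w z - Complex.exp z) - d * E (fun n : ℕ => w n / (n + p) / (n + q)) z‖ := by
          rw [sub_right_comm]
      _ ≤ ‖E w z - Complex.exp z‖ + ‖d * E (fun n : ℕ => w n / (n + p) / (n + q)) z‖ :=
          norm_sub_le _ _
      _ ≤ θ * Real.exp (max z.re 0) + d * ((1 + θ) / p / q * Real.exp (max z.re 0)) := by
          rw [norm_mul, Complex.norm_real, Real.norm_eq_abs, abs_of_nonneg hd]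
          gcongr
      _ = _ := by field_simp; ring

lemma good_prod {ι : Type} (S : Finset ι) (p q d : ι → ℝ) (hp : ∀ i ∈ S, 0 < p i)
    (hq : ∀ i ∈ S, 0 < q i) (hd : ∀ i ∈ S, 0 ≤ d i) (hd' : ∀ i ∈ S, d i ≤ p i * q i) :
    Good (fun n => ∏ i ∈ S, (1 - d i / ((n + p i) * (n + q i))))
      (∏ i ∈ S, (1 + d i / (p i * q i)) - 1) := by
  classical
  induction S using Finset.induction_on with
  | empty => simpa using good_one
  | insert a S ha ih =>
    have h1 := ih (fun i hi => hp i (Finset.mem_insert_of_mem hi))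
      (fun i hi => hq i (Finset.mem_insert_of_mem hi))
      (fun i hi => hd i (Finset.mem_insert_of_mem hi))
      (fun i hi => hd' i (Finset.mem_insert_of_mem hi))
    have h2 := good_step _ _ h1 (p a) (q a) (d a) (hp a (Finset.mem_insert_self _ _))
      (hq a (Finset.mem_insert_self _ _)) (hd a (Finset.mem_insert_self _ _))
      (hd' a (Finset.mem_insert_self _ _))
    simp_rw [Finset.prod_insert ha]
    convert h2 using 1
    · funext n; ring
    · ring

lemma lower (w : ℕ → ℝ) (θ : ℝ) (h : Good w θ) (hθ : θ < 1) (z : ℂ) (hz : 0 ≤ z.re) :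
    (1 - θ) * (Real.exp z.re - 1) ≤ ‖E w z + E w (-z)‖ := by
  have hθ0 : 0 ≤ θ := by
    have := (norm_nonneg _).trans (h.2 0)
    simpa using this
  have lo : ∀ x : ℂ, 0 ≤ x.re → (1 - θ) * Real.exp x.re ≤ ‖E w x‖ := by
    intro x hx
    have h1 := h.2 x
    rw [max_eq_left hx] at h1
    have h2 : ‖Complex.exp x‖ ≤ ‖E w x‖ + ‖E w x - Complex.exp x‖ := by
      calc ‖Complex.exp x‖ = ‖E w x - (E w x - Complex.exp x)‖ := by ring_nf
        _ ≤ _ := norm_sub_le _ _
    rw [Complex.norm_exp] at h2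
    linarith
  have pos : ∀ x : ℂ, 0 ≤ x.re → 0 < ‖E w x‖ := fun x hx =>
    lt_of_lt_of_le (mul_pos (by linarith) (Real.exp_pos _)) (lo x hx)
  have up : ∀ x : ℂ, 0 ≤ x.re → ‖E w (-x)‖ ≤ 1 + θ := by
    intro x hx
    have h1 := h.2 (-x)
    rw [max_eq_right (by simpa using hx)] at h1
    have h2 : ‖Complex.exp (-x)‖ ≤ 1 := by
      rw [Complex.norm_exp, Real.exp_le_one_iff]; simpa using hx
    calc ‖E w (-x)‖ = ‖(E w (-x) - Complex.exp (-x)) + Complex.exp (-x)‖ := by ring_nf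
      _ ≤ _ := norm_add_le _ _
      _ ≤ _ := by simp at h1; linarith
  set H : ℂ → ℂ := fun x => Complex.exp x * E w (-x) / E w x with hH
  have hHb : ∀ x : ℂ, 0 ≤ x.re → ‖H x‖ ≤ (1 + θ) / (1 - θ) := by
    intro x hx
    simp only [hH, norm_div, norm_mul, Complex.norm_exp]
    rw [div_le_div_iff₀ (pos x hx) (by linarith)]
    have h1 := lo x hx
    have h2 := up x hx
    have h3 := Real.exp_pos x.re
    calc Real.exp x.re * ‖E w (-x)‖ * (1 - θ) = ‖E w (-x)‖ * ((1 - θ) * Real.exp x.re) := by ring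
      _ ≤ (1 + θ) * ‖E w x‖ := by gcongr
  have hd := E_diff w 1 h.1
  have hHd : ∀ x : ℂ, 0 ≤ x.re → DifferentiableAt ℂ H x := by
    intro x hx
    refine DifferentiableAt.div ?_ (hd x) (norm_pos_iff.1 (pos x hx))
    exact Complex.differentiableAt_exp.mul ((hd (-x)).comp x differentiableAt_id.neg)
  have key : ‖H z‖ ≤ 1 := by
    refine PhragmenLindelof.right_half_plane_of_bounded_on_real (f := H) ?_ ?_ ?_ ?_ hz
    · refine DifferentiableOn.diffContOnCl ?_
      rw [Complex.closure_setOfPred_lt_re]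
      exact fun x hx => (hHd x hx).differentiableWithinAt
    · refine ⟨0, by norm_num, 0, ?_⟩
      refine Asymptotics.IsBigO.of_bound ((1 + θ) / (1 - θ)) ?_
      refine eventually_inf_principal.2 (Eventually.of_forall fun x hx => ?_)
      simpa using hHb x (le_of_lt hx)
    · refine ⟨(1 + θ) / (1 - θ), ?_⟩
      rw [eventually_map]
      filter_upwards [eventually_ge_atTop (0:ℝ)] with x hx
      exact hHb x (by simpa using hx)
    · intro y
      have e : -((y : ℂ) * Complex.I) = (starRingEnd ℂ) ((y : ℂ) * Complex.I) := by simp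
      simp only [hH, norm_div, norm_mul, Complex.norm_exp]
      rw [e, E_conj, Complex.norm_conj, div_le_one (pos _ (by simp))]
      simp
  simp only [hH, norm_div, norm_mul, Complex.norm_exp] at key
  rw [div_le_one (pos z hz)] at key
  have h1 := lo z hz
  have h2 : ‖E w z‖ ≤ ‖E w z + E w (-z)‖ + ‖E w (-z)‖ := by
    calc ‖E w z‖ = ‖(E w z + E w (-z)) - E w (-z)‖ := by ring_nf
      _ ≤ _ := norm_sub_le _ _
  have h3 := Real.exp_pos z.re
  have h4 : 1 ≤ Real.exp z.re := Real.one_le_exp hz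
  have h5 : Real.exp z.re * ((1 - θ) * (Real.exp z.re - 1)) ≤
      Real.exp z.re * ‖E w z + E w (-z)‖ := by
    have : (Real.exp z.re - 1) * ((1 - θ) * Real.exp z.re) ≤ (Real.exp z.re - 1) * ‖E w z‖ := by
      gcongr
    nlinarith
  exact le_of_mul_le_mul_left h5 h3

lemma E_even (w : ℕ → ℝ) (B : ℝ) (hw : ∀ n, |w n| ≤ B) (z : ℂ) :
    E w z + E w (-z) =
      2 * ∑' k : ℕ, (w (2 * k) : ℂ) * (z ^ 2) ^ k / ((2 * k).factorial : ℂ) := by
  have s1 := summ w B hw z
  have s2 := summ w B hw (-z)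
  obtain ⟨g, hg⟩ : ∃ g : ℕ → ℂ, g = fun n => (w n : ℂ) * z ^ n / (n.factorial : ℂ) +
    (w n : ℂ) * (-z) ^ n / (n.factorial : ℂ) := ⟨_, rfl⟩
  have s3 : Summable g := hg ▸ s1.add s2
  have e0 : E w z + E w (-z) = ∑' n, g n := by
    rw [hg]; exact (s1.tsum_add s2).symm
  have s4 : Summable fun k => g (2 * k) :=
    s3.comp_injective (i := fun k => 2 * k) (fun a b hab => by simpa using hab)
  have s5 : Summable fun k => g (2 * k + 1) :=
    s3.comp_injective (i := fun k => 2 * k + 1) (fun a b hab => by simpa using hab)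
  have e2 : ∀ k : ℕ, g (2 * k + 1) = 0 := by
    intro k
    rw [hg]
    beta_reduce
    rw [Odd.neg_pow ⟨k, rfl⟩]; ring
  have e1 : ∀ k : ℕ, g (2 * k) =
      2 * ((w (2 * k) : ℂ) * (z ^ 2) ^ k / ((2 * k).factorial : ℂ)) := by
    intro k
    rw [hg]
    beta_reduce
    rw [Even.neg_pow ⟨k, two_mul k⟩, ← pow_mul]; ring
  rw [e0, ← tsum_even_add_odd s4 s5]
  simp_rw [e2, e1]
  rw [tsum_zero, add_zero, tsum_mul_left]

end Pool.Agent.H.MP_1ac4dc_an
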