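import Pool.Agent.H.MP_1ac4dc_an.A

set_option autoImplicit false
open Filter Topology Finset

namespace Pool.Agent.H.MP_1ac4dc_an

noncomputable def pr (N h : ℕ) (s : ℝ) : ℝ :=
  ∏ j ∈ range h, ((s + ((j : ℝ) + 1) / N) * (s + 1 - ((j : ℝ) + 1) / N))

noncomputable def Q (N r : ℕ) (s : ℝ) : ℝ := ∏ j ∈ range r, (s + ((j : ℝ) + 1) / N)

lemma refl_aux (N h c : ℕ) (hN : N = 2 * h + c + 1) (s : ℝ) :
    ∏ j ∈ range h, (s + (((h + c + j : ℕ) : ℝ) + 1) / N) =
      ∏ j ∈ range h, (s + 1 - ((j : ℝ) + 1) / N) := by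
  rw [← prod_range_reflect]
  refine prod_congr rfl fun j hj => ?_
  have hj' := mem_range.1 hj
  obtain ⟨t, rfl⟩ : ∃ t, h = j + t + 1 := ⟨h - 1 - j, by omega⟩
  have e : j + t + 1 - 1 - j = t := by omega
  rw [e, hN]
  push_cast
  field_simp
  ring

lemma Q_odd (h : ℕ) (s : ℝ) : Q (2 * h + 1) (2 * h) s = pr (2 * h + 1) h s := by
  unfold Q pr
  have := refl_aux (2 * h + 1) h 0 rfl s
  rw [prod_mul_distrib, ← this]
  conv_lhs => rw [show range (2 * h) = range (h + h) by rw [two_mul]]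
  rw [prod_range_add]
  simp

lemma Q_even (h : ℕ) (s : ℝ) :
    Q (2 * h + 2) (2 * h + 1) s = (s + 1 / 2) * pr (2 * h + 2) h s := by
  unfold Q pr
  have := refl_aux (2 * h + 2) h 1 rfl s
  rw [prod_mul_distrib, ← this]
  conv_lhs => rw [show range (2 * h + 1) = range ((h + 1) + h) by congr 1; ring]
  rw [prod_range_add, prod_range_succ]
  have e : ((h : ℝ) + 1) / ((2 * h + 2 : ℕ) : ℝ) = 1 / 2 := by
    push_cast; field_simp
  rw [e]; ring

lemma pair (m : ℕ) (hm : 1 ≤ m) (s : ℝ) :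
    Q (m + 1) m s * pr m (m / 2) s = (s + 1 / 2) * Q m (m - 1) s * pr (m + 1) (m / 2) s := by
  rcases Nat.even_or_odd' m with ⟨h, rfl | rfl⟩
  · obtain ⟨t, rfl⟩ : ∃ t, h = t + 1 := ⟨h - 1, by omega⟩
    have e1 : 2 * (t + 1) / 2 = t + 1 := by omega
    have e2 : 2 * (t + 1) - 1 = 2 * t + 1 := by omega
    rw [e1, e2, Q_odd]
    have e3 : 2 * (t + 1) = 2 * t + 2 := by ring
    have := Q_even t s
    rw [← e3] at this
    rw [this]
    have e4 : pr (2 * (t + 1)) (t + 1) s = pr (2 * (t + 1)) t s * ((s + 1 / 2) * (s + 1 / 2)) := by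
      unfold pr
      rw [prod_range_succ]
      have e : ((t : ℝ) + 1) / ((2 * (t + 1) : ℕ) : ℝ) = 1 / 2 := by
        push_cast; field_simp
      rw [e]; ring
    rw [e4]; ring
  · have e1 : (2 * h + 1) / 2 = h := by omega
    have e2 : 2 * h + 1 - 1 = 2 * h := by omega
    rw [e1, e2, Q_odd, Q_even]; ring

noncomputable def al (m j : ℕ) : ℝ := ((j : ℝ) + 1) / m
noncomputable def de (m j : ℕ) : ℝ :=
  al m j * (1 - al m j) - al (m + 1) j * (1 - al (m + 1) j)

noncomputable def Rf (m : ℕ) (s : ℝ) : ℝ :=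
  ∏ j ∈ range (m / 2), (1 - de m j / ((s + al m j) * (s + 1 - al m j)))

lemma al_pos (m j : ℕ) (hj : j < m / 2) : 0 < al m j := by
  have : (0 : ℝ) < m := by exact_mod_cast (show 0 < m by omega)
  unfold al; positivity

lemma al_le (m j : ℕ) (hj : j < m / 2) : al m j ≤ 1 / 2 := by
  have h0 : (0 : ℝ) < m := by exact_mod_cast (show 0 < m by omega)
  have h1 : (2 * (j + 1) : ℝ) ≤ m := by exact_mod_cast (show 2 * (j + 1) ≤ m by omega)
  unfold al
  rw [div_le_div_iff₀ h0 two_pos]; linarith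

lemma al_succ (m j : ℕ) (hj : j < m / 2) : al (m + 1) j = al m j * (1 - 1 / (m + 1)) := by
  have h0 : (0 : ℝ) < m := by exact_mod_cast (show 0 < m by omega)
  unfold al; push_cast; field_simp; ring

lemma de_bounds (m j : ℕ) (hj : j < m / 2) :
    0 ≤ de m j ∧ de m j ≤ al m j * (1 - al m j) / (m + 1) := by
  have h1 := al_pos m j hj
  have h2 := al_le m j hj
  have h3 : (0 : ℝ) < 1 / (m + 1) := by positivity
  have h4 : (1 : ℝ) / (m + 1) ≤ 1 := by
    rw [div_le_one (by positivity)]; simp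
  unfold de
  rw [al_succ m j hj, div_eq_mul_one_div (al m j * (1 - al m j)) ((m : ℝ) + 1)]
  set u := (1 : ℝ) / (m + 1)
  set a := al m j
  have e : a * (1 - a) - a * (1 - u) * (1 - a * (1 - u)) = a * u * (1 - a - a * (1 - u)) := by ring
  rw [e]
  have h5 : 0 ≤ a * (1 - u) := mul_nonneg h1.le (by linarith)
  have h6 : a * (1 - u) ≤ a := mul_le_of_le_one_right h1.le (by linarith)
  constructor
  · exact mul_nonneg (by positivity) (by linarith)
  · have : a * u * (1 - a - a * (1 - u)) ≤ a * u * (1 - a) :=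
      mul_le_mul_of_nonneg_left (by linarith) (by positivity)
    linarith

lemma Rf_mul (m : ℕ) (s : ℝ) (hs : 0 ≤ s) :
    Rf m s * pr m (m / 2) s = pr (m + 1) (m / 2) s := by
  unfold Rf pr
  rw [← prod_mul_distrib]
  refine prod_congr rfl fun j hj => ?_
  have h1 := al_pos m j (mem_range.1 hj)
  have h2 := al_le m j (mem_range.1 hj)
  have h3 : (s + al m j) * (s + 1 - al m j) ≠ 0 := mul_ne_zero (by linarith) (by linarith)
  change (1 - de m j / ((s + al m j) * (s + 1 - al m j))) * ((s + al m j) * (s + 1 - al m j)) =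
    (s + al (m + 1) j) * (s + 1 - al (m + 1) j)
  rw [sub_mul, div_mul_cancel₀ _ h3, de]; ring

lemma pr_pos (m : ℕ) (s : ℝ) (hs : 0 ≤ s) : 0 < pr m (m / 2) s := by
  refine prod_pos fun j hj => ?_
  have h1 := al_pos m j (mem_range.1 hj)
  have h2 := al_le m j (mem_range.1 hj)
  exact mul_pos (show 0 < s + al m j by linarith) (show 0 < s + 1 - al m j by linarith)

lemma Q_Rf (m : ℕ) (hm : 1 ≤ m) (s : ℝ) (hs : 0 ≤ s) :
    Q (m + 1) m s = (s + 1 / 2) * Q m (m - 1) s * Rf m s := by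
  have h := pair m hm s
  rw [← Rf_mul m s hs] at h
  have := (pr_pos m s hs).ne'
  apply mul_right_cancel₀ this
  rw [h]; ring

lemma fact_add (n r : ℕ) :
    ((n + r).factorial : ℝ) = n.factorial * ∏ j ∈ range r, ((n : ℝ) + j + 1) := by
  induction r with
  | zero => simp
  | succ r ih =>
    rw [← add_assoc, Nat.factorial_succ, prod_range_succ]; push_cast; rw [ih]; ring

lemma fact_mul (t k : ℕ) :
    (((t + 1) * (k + 1)).factorial : ℝ) =
      ((t + 1) * k).factorial * (((t : ℝ) + 1) ^ (t + 1) * (Q (t + 1) t k * (k + 1))) := by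
  rw [mul_add, mul_one, fact_add]
  congr 1
  have e : ∀ j ∈ range (t + 1), ((((t + 1) * k : ℕ) : ℝ) + j + 1) =
      ((t : ℝ) + 1) * (k + ((j : ℝ) + 1) / ((t + 1 : ℕ) : ℝ)) := by
    intro j _
    push_cast; field_simp; ring
  rw [prod_congr rfl e, prod_mul_distrib, prod_const, card_range, prod_range_succ]
  unfold Q
  congr 2
  push_cast; field_simp

noncomputable def K (m : ℕ) : ℝ := ((m : ℝ) + 1) ^ (m + 1) / (4 * (m : ℝ) ^ m)

noncomputable def mu (m k : ℕ) : ℝ :=
  ((2 * k).factorial : ℝ) * ((m * k).factorial / (((m + 1) * k).factorial * k.factorial)) * K m ^ k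

lemma Q_pos (N r : ℕ) (s : ℝ) (hs : 0 ≤ s) (hN : 0 < N) : 0 < Q N r s := by
  refine prod_pos fun j _ => ?_
  have : (0 : ℝ) < N := by exact_mod_cast hN
  positivity

lemma mu_succ (m : ℕ) (hm : 1 ≤ m) (k : ℕ) : mu m (k + 1) * Rf m k = mu m k := by
  have hq := Q_Rf m hm k (Nat.cast_nonneg k)
  obtain ⟨t, rfl⟩ : ∃ t, m = t + 1 := ⟨m - 1, by omega⟩
  rw [Nat.add_sub_cancel] at hq
  have f1 := fact_mul t k
  have f2 := fact_mul (t + 1) k
  have f3 : ((2 * (k + 1)).factorial : ℝ) = (2 * k).factorial * ((2 * k + 1) * (2 * k + 2)) := by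
    rw [show 2 * (k + 1) = 2 * k + 1 + 1 by ring, Nat.factorial_succ, Nat.factorial_succ]
    push_cast; ring
  have f4 : ((k + 1).factorial : ℝ) = k.factorial * (k + 1) := by
    rw [Nat.factorial_succ]; push_cast; ring
  have p1 := Q_pos (t + 1) t k (Nat.cast_nonneg k) (by omega)
  have p2 := Q_pos (t + 1 + 1) (t + 1) k (Nat.cast_nonneg k) (by omega)
  have hR : Rf (t + 1) k = Q (t + 1 + 1) (t + 1) k / ((k + 1 / 2) * Q (t + 1) t k) := by
    rw [hq]; field_simp
  unfold mu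
  rw [f1, f2, f3, f4, hR, pow_succ (K (t + 1)) k]
  generalize K (t + 1) ^ k = X
  unfold K
  push_cast
  have : (0 : ℝ) < ((t + 1 + 1) * k).factorial := by positivity
  have : (0 : ℝ) < k.factorial := by positivity
  field_simp
  ring

lemma fac_bounds (m j : ℕ) (hj : j < m / 2) (s : ℝ) (hs : 0 ≤ s) :
    0 ≤ de m j / ((s + al m j) * (s + 1 - al m j)) ∧
      de m j / ((s + al m j) * (s + 1 - al m j)) ≤ 1 / (m + 1) * (1 / (2 * s + 1) ^ 2) := by
  have h1 := al_pos m j hj
  have h2 := al_le m j hj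
  obtain ⟨h3, h4⟩ := de_bounds m j hj
  have h5 : 0 < (s + al m j) * (s + 1 - al m j) := mul_pos (by linarith) (by linarith)
  refine ⟨by positivity, ?_⟩
  rw [div_le_iff₀ h5]
  refine h4.trans ?_
  rw [div_eq_mul_one_div (al m j * (1 - al m j)) ((m : ℝ) + 1), mul_comm, mul_assoc]
  refine mul_le_mul_of_nonneg_left ?_ (by positivity)
  rw [one_div_mul_eq_div, le_div_iff₀ (by positivity)]
  have : 0 ≤ (s ^ 2 + s) * (1 - 2 * al m j) ^ 2 := by positivity
  nlinarith

lemma fac_le_one (m : ℕ) (s : ℝ) (hs : 0 ≤ s) :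
    1 / ((m : ℝ) + 1) * (1 / (2 * s + 1) ^ 2) ≤ 1 := by
  refine mul_le_one₀ ?_ (by positivity) ?_
  · rw [div_le_one (by positivity)]; simp
  · rw [div_le_one (by positivity)]; nlinarith

lemma Rf_bounds (m : ℕ) (s : ℝ) (hs : 0 ≤ s) : 0 ≤ Rf m s ∧ Rf m s ≤ 1 := by
  have h := fac_le_one m s hs
  constructor
  · refine prod_nonneg fun j hj => ?_
    have := (fac_bounds m j (mem_range.1 hj) s hs).2
    linarith
  · refine prod_le_one (fun j hj => ?_) (fun j hj => ?_)
    · have := (fac_bounds m j (mem_range.1 hj) s hs).2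
      linarith
    · have := (fac_bounds m j (mem_range.1 hj) s hs).1
      linarith

lemma Rf_tendsto (m i : ℕ) : Tendsto (fun N : ℕ => Rf m ((N : ℝ) + i)) atTop (𝓝 1) := by
  have h : (1 : ℝ) = ∏ _j ∈ range (m / 2), ((1 : ℝ) - 0) := by simp
  rw [h]
  refine tendsto_finset_prod _ fun j hj => tendsto_const_nhds.sub ?_
  refine squeeze_zero (fun N => (fac_bounds m j (mem_range.1 hj) _ (by positivity)).1)
    (g := fun N : ℕ => 1 / ((N : ℝ) + 1)) (fun N => ?_) tendsto_one_div_add_atTop_nhds_zero_nat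
  refine (fac_bounds m j (mem_range.1 hj) _ (by positivity)).2.trans ?_
  have h1 : (1 : ℝ) / (m + 1) ≤ 1 := by rw [div_le_one (by positivity)]; simp
  refine (mul_le_of_le_one_left (by positivity) h1).trans ?_
  have hN : (0 : ℝ) ≤ N := Nat.cast_nonneg N
  have hi : (0 : ℝ) ≤ i := Nat.cast_nonneg i
  gcongr
  nlinarith

lemma sum_odd (N : ℕ) : ∑ i ∈ range (N + 1), 1 / (2 * (i : ℝ) + 1) ^ 2 ≤
    5 / 4 - 1 / (4 * ((N : ℝ) + 1)) := by
  induction N with
  | zero => norm_num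
  | succ N ih =>
    rw [sum_range_succ]
    push_cast
    have : 1 / (2 * ((N : ℝ) + 1) + 1) ^ 2 ≤ 1 / (4 * (N + 1)) - 1 / (4 * (N + 1 + 1)) := by
      rw [div_sub_div _ _ (by positivity) (by positivity), div_le_div_iff₀ (by positivity)
        (by positivity)]
      have hN : (0 : ℝ) ≤ N := Nat.cast_nonneg N
      nlinarith
    linarith

lemma sum_odd' (N : ℕ) : ∑ i ∈ range N, 1 / (2 * (i : ℝ) + 1) ^ 2 ≤ 5 / 4 := by
  cases N with
  | zero => norm_num
  | succ N =>
    have := sum_odd N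
    have h : 0 ≤ 1 / (4 * ((N : ℝ) + 1)) := by positivity
    linarith

noncomputable def W (m N : ℕ) (n : ℕ) : ℝ := ∏ i ∈ range N, Rf m ((n : ℝ) / 2 + i)

lemma W_good (m N : ℕ) : ∃ θ ≤ Real.exp (5 / 8) - 1, Good (W m N) θ := by
  have key := good_prod (range N ×ˢ range (m / 2)) (fun x => 2 * x.1 + 2 * al m x.2)
    (fun x => 2 * x.1 + 2 - 2 * al m x.2) (fun x => 4 * de m x.2)
    (fun x hx => by
      have := al_pos m x.2 (mem_range.1 (mem_product.1 hx).2)
      positivity)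
    (fun x hx => by
      have := al_le m x.2 (mem_range.1 (mem_product.1 hx).2)
      have : (0 : ℝ) ≤ x.1 := Nat.cast_nonneg _
      linarith)
    (fun x hx => by
      have := (de_bounds m x.2 (mem_range.1 (mem_product.1 hx).2)).1
      positivity)
    (fun x hx => by
      have hj := mem_range.1 (mem_product.1 hx).2
      have h1 := al_pos m x.2 hj
      have h2 := al_le m x.2 hj
      have h0 : (0 : ℝ) ≤ x.1 := Nat.cast_nonneg _
      have h3 := ((fac_bounds m x.2 hj x.1 h0).2).trans (fac_le_one m x.1 h0)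
      rw [div_le_one (mul_pos (by linarith) (by linarith))] at h3
      nlinarith)
  have eW : W m N = fun n : ℕ => ∏ i ∈ range N ×ˢ range (m / 2),
      (1 - 4 * de m i.2 / ((n + (2 * i.1 + 2 * al m i.2)) * (n + (2 * i.1 + 2 - 2 * al m i.2)))) := by
    funext n
    unfold W Rf
    rw [prod_product]
    refine prod_congr rfl fun i _ => prod_congr rfl fun j hj => ?_
    have h1 := al_pos m j (mem_range.1 hj)
    have h2 := al_le m j (mem_range.1 hj)
    have h0 : (0 : ℝ) ≤ i := Nat.cast_nonneg _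
    have h0' : (0 : ℝ) ≤ n := Nat.cast_nonneg _
    have e : ((n : ℝ) + (2 * i + 2 * al m j)) * (n + (2 * i + 2 - 2 * al m j)) =
      4 * (((n : ℝ) / 2 + i + al m j) * ((n : ℝ) / 2 + i + 1 - al m j)) := by ring
    simp only
    rw [e, mul_div_mul_left _ _ (by norm_num : (4 : ℝ) ≠ 0)]
  rw [eW]
  refine ⟨_, ?_, key⟩
  · have hb : ∀ x ∈ range N ×ˢ range (m / 2),
        0 ≤ 4 * de m x.2 / ((2 * (x.1 : ℝ) + 2 * al m x.2) * (2 * x.1 + 2 - 2 * al m x.2)) ∧
        4 * de m x.2 / ((2 * (x.1 : ℝ) + 2 * al m x.2) * (2 * x.1 + 2 - 2 * al m x.2)) ≤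
          1 / (m + 1) * (1 / (2 * (x.1 : ℝ) + 1) ^ 2) := by
      intro x hx
      have e : (2 * (x.1 : ℝ) + 2 * al m x.2) * (2 * x.1 + 2 - 2 * al m x.2) =
        4 * (((x.1 : ℝ) + al m x.2) * ((x.1 : ℝ) + 1 - al m x.2)) := by ring
      rw [e, mul_div_mul_left _ _ (by norm_num : (4 : ℝ) ≠ 0)]
      exact fac_bounds m x.2 (mem_range.1 (mem_product.1 hx).2) _ (Nat.cast_nonneg _)
    refine sub_le_sub_right ?_ 1
    calc _ ≤ ∏ x ∈ range N ×ˢ range (m / 2),
          Real.exp (1 / ((m : ℝ) + 1) * (1 / (2 * (x.1 : ℝ) + 1) ^ 2)) := by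
          refine prod_le_prod (fun x hx => ?_) (fun x hx => ?_)
          · have := (hb x hx).1
            linarith
          · have := (hb x hx).2
            have h2 := Real.add_one_le_exp (1 / ((m : ℝ) + 1) * (1 / (2 * (x.1 : ℝ) + 1) ^ 2))
            linarith
      _ ≤ _ := by
          rw [← Real.exp_sum, Real.exp_le_exp, sum_product]
          simp only [sum_const, card_range, nsmul_eq_mul]
          simp_rw [← mul_assoc]
          rw [← mul_sum]
          have h1 := sum_odd' N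
          have h2 : ((m / 2 : ℕ) : ℝ) * (1 / ((m : ℝ) + 1)) ≤ 1 / 2 := by
            have : (2 * ((m / 2 : ℕ) : ℝ)) ≤ m := by
              exact_mod_cast (show 2 * (m / 2) ≤ m by omega)
            rw [mul_one_div, div_le_div_iff₀ (by positivity) two_pos]; linarith
          calc _ ≤ (1 / 2 : ℝ) * (5 / 4) := by gcongr
            _ = _ := by norm_num

lemma mu_add (m : ℕ) (hm : 1 ≤ m) (k N : ℕ) :
    mu m (k + N) * ∏ i ∈ range N, Rf m ((k : ℝ) + i) = mu m k := by
  induction N with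
  | zero => simp
  | succ N ih =>
    rw [prod_range_succ, ← ih, ← mu_succ m hm (k + N), ← add_assoc]
    push_cast; ring

lemma K_pos (m : ℕ) (hm : 1 ≤ m) : 0 < K m := by
  have : (0 : ℝ) < m := by exact_mod_cast hm
  unfold K; positivity

lemma mu_pos (m : ℕ) (hm : 1 ≤ m) (k : ℕ) : 0 < mu m k := by
  have := K_pos m hm
  unfold mu; positivity

lemma mu_ge (m : ℕ) (hm : 1 ≤ m) (N : ℕ) : 1 ≤ mu m N := by
  have h := mu_add m hm 0 N
  have h0 : mu m 0 = 1 := by simp [mu]
  rw [zero_add, h0] at h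
  rw [← h]
  refine mul_le_of_le_one_right (mu_pos m hm N).le (prod_le_one (fun i _ => ?_) (fun i _ => ?_))
  · exact (Rf_bounds m _ (by positivity)).1
  · exact (Rf_bounds m _ (by positivity)).2

lemma mu_W (m : ℕ) (hm : 1 ≤ m) (k N : ℕ) :
    mu m N * W m N (2 * k) = mu m k * ∏ i ∈ range k, Rf m ((N : ℝ) + i) := by
  have h1 := mu_add m hm k N
  have h2 := mu_add m hm N k
  have e : W m N (2 * k) = ∏ i ∈ range N, Rf m ((k : ℝ) + i) := by
    unfold W
    refine prod_congr rfl fun i _ => ?_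
    congr 1; push_cast; ring
  rw [e, ← h1, ← h2, add_comm N k]; ring

lemma main (m : ℕ) (hm : 1 ≤ m) (x : ℂ) (hx : 0 < x.re) :
    ∑' k : ℕ, (mu m k : ℂ) * (x ^ 2) ^ k / ((2 * k).factorial : ℂ) ≠ 0 := by
  have hθ : Real.exp (5 / 8) < 2 := by
    rw [← Real.exp_log two_pos, Real.exp_lt_exp]
    have := Real.log_two_gt_d9
    linarith
  set c := (2 - Real.exp (5 / 8)) * (Real.exp x.re - 1) / 2 with hc
  have he : 1 < Real.exp x.re := Real.one_lt_exp_iff.2 hx
  have hc0 : 0 < c := div_pos (mul_pos (by linarith) (by linarith)) two_pos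
  have low : ∀ N : ℕ, c ≤ ‖∑' k : ℕ, ((mu m k * ∏ i ∈ range k, Rf m ((N : ℝ) + i) : ℝ) : ℂ) *
      (x ^ 2) ^ k / ((2 * k).factorial : ℂ)‖ := by
    intro N
    obtain ⟨θ, h1, h2⟩ := W_good m N
    have h3 := lower _ _ h2 (by linarith) x hx.le
    rw [E_even _ 1 h2.1, norm_mul] at h3
    have e : ∑' k : ℕ, ((mu m k * ∏ i ∈ range k, Rf m ((N : ℝ) + i) : ℝ) : ℂ) *
        (x ^ 2) ^ k / ((2 * k).factorial : ℂ) = (mu m N : ℂ) *
        ∑' k : ℕ, (W m N (2 * k) : ℂ) * (x ^ 2) ^ k / ((2 * k).factorial : ℂ) := by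
      rw [← tsum_mul_left]
      congr 1; funext k
      rw [← mu_W m hm]; push_cast; ring
    rw [e, norm_mul, Complex.norm_real, Real.norm_eq_abs, abs_of_pos (mu_pos m hm N)]
    refine le_trans ?_ (le_mul_of_one_le_left (norm_nonneg _) (mu_ge m hm N))
    have h4 : (2 - Real.exp (5 / 8)) * (Real.exp x.re - 1) ≤ (1 - θ) * (Real.exp x.re - 1) :=
      mul_le_mul_of_nonneg_right (by linarith) (by linarith)
    simp only [Complex.norm_ofNat] at h3
    rw [hc]; linarith
  have lim : Tendsto (fun N : ℕ => ∑' k : ℕ,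
      ((mu m k * ∏ i ∈ range k, Rf m ((N : ℝ) + i) : ℝ) : ℂ) *
      (x ^ 2) ^ k / ((2 * k).factorial : ℂ)) atTop
      (𝓝 (∑' k : ℕ, (mu m k : ℂ) * (x ^ 2) ^ k / ((2 * k).factorial : ℂ))) := by
    refine tendsto_tsum_of_dominated_convergence
      (Real.summable_pow_div_factorial (K m * ‖x ^ 2‖)) (fun k => ?_)
      (Eventually.of_forall fun N k => ?_)
    · refine Tendsto.div_const (Tendsto.mul_const _ ?_) _
      refine (Complex.continuous_ofReal.tendsto _).comp ?_
      have h : Tendsto (fun N : ℕ => ∏ i ∈ range k, Rf m ((N : ℝ) + i)) atTop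
          (𝓝 (∏ _i ∈ range k, (1 : ℝ))) := tendsto_finset_prod _ fun i _ => Rf_tendsto m i
      simpa using h.const_mul (mu m k)
    · have p0 : 0 ≤ ∏ i ∈ range k, Rf m ((N : ℝ) + i) :=
        prod_nonneg fun i _ => (Rf_bounds m _ (by positivity)).1
      have p1 : ∏ i ∈ range k, Rf m ((N : ℝ) + i) ≤ 1 :=
        prod_le_one (fun i _ => (Rf_bounds m _ (by positivity)).1)
          (fun i _ => (Rf_bounds m _ (by positivity)).2)
      have p2 := mu_pos m hm k
      have p3 := K_pos m hm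
      rw [norm_div, norm_mul, norm_pow, Complex.norm_real, Complex.norm_natCast, Real.norm_eq_abs,
        abs_of_nonneg (mul_nonneg p2.le p0)]
      have p4 : ((m * k).factorial : ℝ) ≤ ((m + 1) * k).factorial := by
        exact_mod_cast Nat.factorial_le (by nlinarith)
      have p5 : mu m k / (2 * k).factorial ≤ K m ^ k / k.factorial := by
        unfold mu
        rw [div_le_div_iff₀ (by positivity) (by positivity)]
        field_simp
        exact p4
      calc _ ≤ mu m k * ‖x ^ 2‖ ^ k / ((2 * k).factorial : ℝ) := by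
            gcongr; exact mul_le_of_le_one_right p2.le p1
        _ = mu m k / (2 * k).factorial * ‖x ^ 2‖ ^ k := by ring
        _ ≤ K m ^ k / k.factorial * ‖x ^ 2‖ ^ k := by gcongr
        _ = _ := by rw [mul_pow]; ring
  intro h0
  rw [h0] at lim
  have := ge_of_tendsto' lim.norm low
  simp at this
  linarith

theorem real_zeros (m : ℕ) (hm : 1 ≤ m) (z : ℂ)
    (h : (∑' k : ℕ, ((Nat.factorial (m * k) : ℂ) /
          ((Nat.factorial ((m + 1) * k) : ℂ) * (Nat.factorial k : ℂ))) * z ^ k) = 0) :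
    z.im = 0 := by
  by_contra hz
  have hK := K_pos m hm
  have hK' : (K m : ℂ) ≠ 0 := by exact_mod_cast hK.ne'
  obtain ⟨x, hx⟩ := IsAlgClosed.exists_pow_nat_eq (z / (K m : ℂ)) two_pos
  have key : ∀ y : ℂ, y ^ 2 = z / (K m : ℂ) → ¬ 0 < y.re := by
    intro y hy h0
    refine main m hm y h0 ?_
    rw [← h, hy]
    congr 1; funext k
    unfold mu
    have : (((2 * k).factorial : ℕ) : ℂ) ≠ 0 := by exact_mod_cast (Nat.factorial_pos _).ne'
    push_cast
    rw [div_pow]
    field_simp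
  have h1 := key x hx
  have h2 := key (-x) (by rw [neg_sq, hx])
  have h3 : x.re = 0 := by
    simp at h1 h2; linarith
  apply hz
  have : z = x ^ 2 * (K m : ℂ) := by rw [hx]; field_simp
  rw [this]
  simp [pow_two, h3]

end Pool.Agent.H.MP_1ac4dc_an
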